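import Pool.Agent.Q196.HaarC5

/-!
# An equivalent `s`-norm on `L_p[0,1]` making the Haar system `1`-greedy

For every `1 < p < ∞` (real or complex scalars) there are `0 < s < 1` and an equivalent `s`-norm on
`L_p[0,1]` for which the `L_p`-normalised Haar system is `1`-greedy.

The `s`-norm is `N(f) = sup ‖∑_{j ∈ S ∪ B} c_j h_j‖` over finite `S`, `B`, `D` with `S` disjoint from
`B` and `D`, `|B| ≤ |D|`, and `τ > 0` with `|a_n(f)| ≥ τ` on `D`, `|c_j| ≤ min(|a_j(f)|, τ)` on `S`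
and `|c_j| ≤ τ` on `B`.  It is monotone in the moduli of the coefficients, has the property that
makes bases `1`-greedy, and satisfies `N(f+g) ≤ N(f) + C (N(f) N(g))^{1/2}` when `N(g) ≤ N(f)`, which
gives the `s`-triangle inequality for small `s`.
-/

open MeasureTheory
open scoped ENNReal

namespace Pool.Agent.Results.MP_877d49_an.HaarSNorm

open Pool.Agent.Q196.HaarGreedy

universe u

theorem result (𝕜 : Type u) [RCLike 𝕜] (p : ℝ≥0∞) [Fact (1 ≤ p)] (h1 : 1 < p) (hp : p < ∞) :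
    (∀ f : Lp 𝕜 p leb, HasSum (fun j => coef 𝕜 p j f • haarL 𝕜 p j) f) ∧
    ∃ s : ℝ, 0 < s ∧ s < 1 ∧ ∃ N : Lp 𝕜 p leb → ℝ, IsSNorm 𝕜 s N ∧ IsEquivalent N ∧
      OneGreedy (haarL 𝕜 p) (coef 𝕜 p) N :=
  main 𝕜 p h1 hp

end Pool.Agent.Results.MP_877d49_an.HaarSNorm
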